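import Pool.Agent.Y142.ZI.Stm

/-!
# Project OI, job FORM1: skew maps with a prescribed characteristic polynomial
-/

set_option autoImplicit false

open Matrix Polynomial
open Pool.Agent.Y142.ZO Pool.Agent.Y142.ZI

namespace Pool.Agent.Q91.OI.FORM1

/-- similar matrices with different index types have the same characteristic polynomial -/
theorem charpoly_sim {F : Type} [Field F] {n k : Type} [Fintype n] [DecidableEq n] [Fintype k]
    [DecidableEq k] (C : Matrix n k F) (D : Matrix k n F) (h2 : D * C = 1)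
    (hc : Fintype.card n = Fintype.card k) (T : Matrix k k F) :
    (C * T * D).charpoly = T.charpoly := by
  have h := Matrix.charpoly_mul_comm' (C * T) D
  rw [← Matrix.mul_assoc D C T, h2, Matrix.one_mul, hc] at h
  exact mul_left_cancel₀ (pow_ne_zero _ X_ne_zero) h

/-- a map is skew if its matrix in another basis is skew -/
theorem skew_sim {F : Type} [Field F] {N : ℕ} {k : Type} [Fintype k] [DecidableEq k]
    (B : Matrix (Fin N) (Fin N) F) (C : Matrix (Fin N) k F) (D : Matrix k (Fin N) F)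
    (h1 : C * D = 1) (T : Matrix k k F)
    (hT : ((Cᵀ * B * C) * T)ᵀ = -((Cᵀ * B * C) * T)) : Skew B (C * T * D) := by
  have h3 : Dᵀ * Cᵀ = 1 := by
    rw [← Matrix.transpose_mul, h1, Matrix.transpose_one]
  have h4 : B * (C * T * D) = Dᵀ * ((Cᵀ * B * C) * T) * D := by
    calc B * (C * T * D) = (Dᵀ * Cᵀ) * (B * (C * T * D)) := by rw [h3, Matrix.one_mul]
      _ = Dᵀ * ((Cᵀ * B * C) * T) * D := by simp only [Matrix.mul_assoc]
  unfold Skew
  rw [h4, Matrix.transpose_mul, Matrix.transpose_mul, Matrix.transpose_transpose, hT,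
    Matrix.neg_mul, Matrix.mul_neg, Matrix.mul_assoc Dᵀ]

/-- the hyperbolic part -/
theorem hyp {F : Type} [Field F] {m : ℕ} (A : Matrix (Fin m) (Fin m) F) :
    ((fromBlocks 0 1 1 0 : Matrix (Fin m ⊕ Fin m) (Fin m ⊕ Fin m) F) * fromBlocks A 0 0 (-Aᵀ))ᵀ =
      -((fromBlocks 0 1 1 0 : Matrix (Fin m ⊕ Fin m) (Fin m ⊕ Fin m) F) *
        fromBlocks A 0 0 (-Aᵀ)) := by
  rw [fromBlocks_multiply, fromBlocks_transpose, fromBlocks_neg]
  simp

/-- two blocks -/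
theorem blocks {F : Type} [Field F] {m : ℕ} {k : Type} [Fintype k] [DecidableEq k]
    (A : Matrix (Fin m) (Fin m) F) (E T : Matrix k k F) (hT : (E * T)ᵀ = -(E * T)) :
    ((fromBlocks (fromBlocks 0 1 1 0 : Matrix (Fin m ⊕ Fin m) (Fin m ⊕ Fin m) F) 0 0 E) *
      fromBlocks (fromBlocks A 0 0 (-Aᵀ)) 0 0 T)ᵀ =
      -((fromBlocks (fromBlocks 0 1 1 0 : Matrix (Fin m ⊕ Fin m) (Fin m ⊕ Fin m) F) 0 0 E) *
      fromBlocks (fromBlocks A 0 0 (-Aᵀ)) 0 0 T) := by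
  rw [fromBlocks_multiply]
  simp only [Matrix.mul_zero, Matrix.zero_mul, add_zero, zero_add]
  rw [fromBlocks_transpose, fromBlocks_neg, hyp A, hT]
  simp

theorem blocks_charpoly {F : Type} [Field F] {m : ℕ} {k : Type} [Fintype k] [DecidableEq k]
    (A : Matrix (Fin m) (Fin m) F) (T : Matrix k k F) :
    (fromBlocks (fromBlocks A 0 0 (-Aᵀ)) 0 0 T).charpoly =
      A.charpoly * (-A).charpoly * T.charpoly := by
  rw [Matrix.charpoly_fromBlocks_zero₁₂, Matrix.charpoly_fromBlocks_zero₁₂,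
    ← Matrix.transpose_neg, Matrix.charpoly_transpose]

/-- the ternary part -/
theorem tern_charpoly {F : Type} [Field F] (a b : F) :
    (!![0, a, 0; b, 0, 0; 0, 0, 0] : Matrix (Fin 3) (Fin 3) F).charpoly =
      X * (X ^ 2 - C (a * b)) := by
  unfold Matrix.charpoly Matrix.charmatrix
  rw [Matrix.det_fin_three]
  simp
  ring

theorem tern_skew {F : Type} [Field F] (d : Fin 3 → F) (a b : F) (h : d 0 * a = -(d 1 * b)) :
    (diagonal d * (!![0, a, 0; b, 0, 0; 0, 0, 0] : Matrix (Fin 3) (Fin 3) F))ᵀ =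
      -(diagonal d * (!![0, a, 0; b, 0, 0; 0, 0, 0] : Matrix (Fin 3) (Fin 3) F)) := by
  ext i j
  rw [Matrix.transpose_apply, Matrix.neg_apply, Matrix.diagonal_mul, Matrix.diagonal_mul]
  fin_cases i <;> fin_cases j <;> simp [h]

/-- the choice of the exponent -/
theorem expo (ℓ : ℕ) [Fact ℓ.Prime] (x y : ℚ_[ℓ]) (hx : x ≠ 0) (hy : y ≠ 0)
    (h : Odd (Padic.valuation (x * y))) :
    ∃ b : ℚ_[ℓ], b ≠ 0 ∧ ‖-(y / x) * b * b‖ = (ℓ : ℝ)⁻¹ := by
  have hℓ : (0 : ℝ) < ℓ := by exact_mod_cast (Fact.out : ℓ.Prime).pos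
  have hℓ' : (ℓ : ℚ_[ℓ]) ≠ 0 := by exact_mod_cast (Fact.out : ℓ.Prime).ne_zero
  rw [Padic.valuation_mul hx hy] at h
  obtain ⟨j, hj⟩ := h
  refine ⟨(ℓ : ℚ_[ℓ]) ^ (Padic.valuation x - j), zpow_ne_zero _ hℓ', ?_⟩
  rw [norm_mul, norm_mul, norm_neg, norm_div, norm_zpow, Padic.norm_p,
    Padic.norm_eq_zpow_neg_valuation hx, Padic.norm_eq_zpow_neg_valuation hy,
    div_eq_mul_inv, ← _root_.zpow_neg, _root_.inv_zpow, ← _root_.zpow_neg,
    ← zpow_add₀ hℓ.ne', ← zpow_add₀ hℓ.ne', ← zpow_add₀ hℓ.ne', ← _root_.zpow_neg_one]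
  congr 1
  linarith

theorem form1 (hWT : S_WT) : S_FORM1 := by
  intro ℓ _ hℓ m B hB hdet A
  obtain ⟨C0, D0, d, h1, h2, hd, hodd, hform⟩ := hWT ℓ hℓ m B hB hdet
  obtain ⟨b, hb, hn⟩ := expo ℓ (d 0) (d 1) (hd 0) (hd 1) hodd
  set a : ℚ_[ℓ] := -(d 1 / d 0) * b with ha
  refine ⟨C0 * fromBlocks (fromBlocks A 0 0 (-Aᵀ)) 0 0 !![0, a, 0; b, 0, 0; 0, 0, 0] * D0, a * b,
    ?_, hn, ?_⟩
  · apply skew_sim B C0 D0 h1
    rw [hform]
    apply blocks
    apply tern_skew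
    rw [ha]
    have := hd 0
    field_simp
  · rw [charpoly_sim C0 D0 h2 (by simp; ring), blocks_charpoly, tern_charpoly]
    ring

/-- JOB FORM1 -/
theorem t (hWT : Pool.Agent.Y142.ZI.S_WT) : Pool.Agent.Y142.ZI.S_FORM1 := form1 hWT

end Pool.Agent.Q91.OI.FORM1
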